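import Pool.Agent.Helper21.RM.StmtsE

/-!
# SPC: the operator of an isolated simple eigenvalue
-/

set_option autoImplicit false

open MT

namespace MR

namespace SpcAux

open Matrix

variable {K : Type} [Field K] {n : ℕ}

theorem root_of_eig (M : Matrix (Fin n) (Fin n) K) (a : K) (x : Fin n → K) (hx : x ≠ 0)
    (h : M *ᵥ x = a • x) : M.charpoly.IsRoot a := by
  have h1 : Module.End.HasEigenvalue (Matrix.toLin' M) a :=
    Module.End.hasEigenvalue_of_hasEigenvector
      (Module.End.hasEigenvector_iff.2 ⟨Module.End.mem_eigenspace_iff.2 (by simpa using h), hx⟩)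
  have h2 := (Module.End.hasEigenvalue_iff_isRoot_charpoly _ _).1 h1
  rwa [Matrix.charpoly_toLin'] at h2

theorem exists_eig (M : Matrix (Fin n) (Fin n) K) (a : K) (h : M.charpoly.IsRoot a) :
    ∃ x : Fin n → K, x ≠ 0 ∧ M *ᵥ x = a • x := by
  rw [← Matrix.charpoly_toLin'] at h
  obtain ⟨x, hx⟩ := ((Module.End.hasEigenvalue_iff_isRoot_charpoly _ _).2 h).exists_hasEigenvector
  refine ⟨x, hx.2, ?_⟩
  have := hx.apply_eq_smul
  simpa using this

theorem simple1 (M : Matrix (Fin n) (Fin n) K) (a : K) (h : M.charpoly.rootMultiplicity a = 1) :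
    ∃ x : Fin n → K, x ≠ 0 ∧ M *ᵥ x = a • x ∧ (∀ v, M *ᵥ v = a • v → ∃ t : K, v = t • x) ∧
      (∀ v, M *ᵥ (M *ᵥ v - a • v) = a • (M *ᵥ v - a • v) → M *ᵥ v - a • v = 0) := by
  have hr : M.charpoly.IsRoot a := by
    rw [← Polynomial.rootMultiplicity_pos (Matrix.charpoly_monic M).ne_zero]
    omega
  obtain ⟨x, hx, hMx⟩ := exists_eig M a hr
  have hG : Module.finrank K (Module.End.maxGenEigenspace (Matrix.toLin' M) a) = 1 := by
    rw [LinearMap.finrank_maxGenEigenspace_eq, Matrix.charpoly_toLin', h]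
  have hxG : x ∈ Module.End.maxGenEigenspace (Matrix.toLin' M) a := by
    rw [Module.End.mem_maxGenEigenspace]
    refine ⟨1, ?_⟩
    simp [hMx]
  have hsp : ∀ v, v ∈ Module.End.maxGenEigenspace (Matrix.toLin' M) a → ∃ t : K, v = t • x := by
    intro v hv
    obtain ⟨t, ht⟩ := (finrank_eq_one_iff_of_nonzero' (⟨x, hxG⟩ :
      Module.End.maxGenEigenspace (Matrix.toLin' M) a) (by
        intro h0
        exact hx (congrArg Subtype.val h0))).1 hG ⟨v, hv⟩
    refine ⟨t, ?_⟩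
    have := congrArg Subtype.val ht
    simpa using this.symm
  refine ⟨x, hx, hMx, ?_, ?_⟩
  · intro v hv
    apply hsp
    rw [Module.End.mem_maxGenEigenspace]
    refine ⟨1, ?_⟩
    simp [hv]
  · intro v hv
    have hvG : v ∈ Module.End.maxGenEigenspace (Matrix.toLin' M) a := by
      rw [Module.End.mem_maxGenEigenspace]
      refine ⟨2, ?_⟩
      have e1 : ∀ u : Fin n → K, ((Matrix.toLin' M) - a • (1 : Module.End K (Fin n → K))) u =
          M *ᵥ u - a • u := by
        intro u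
        simp
      rw [pow_two, Module.End.mul_apply, e1, e1, hv, sub_self]
    obtain ⟨t, rfl⟩ := hsp v hvG
    rw [Matrix.mulVec_smul, hMx, smul_comm, sub_self]

theorem simple2 (M : Matrix (Fin n) (Fin n) K) (a : K) (h : M.charpoly.rootMultiplicity a = 1) :
    ∃ x l : Fin n → K, M *ᵥ x = a • x ∧ l ᵥ* M = a • l ∧ l ⬝ᵥ x = 1 ∧
      (∀ v, M *ᵥ v = a • v → ∃ t : K, v = t • x) ∧
      (∀ r, r ᵥ* M = a • r → ∃ t : K, r = t • l) := by
  obtain ⟨x, hx, hMx, hu, hd⟩ := simple1 M a h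
  obtain ⟨l, hl, hMl, hul, -⟩ := simple1 M.transpose a (by rwa [Matrix.charpoly_transpose])
  simp only [Matrix.mulVec_transpose] at hMl hul
  have hlx : l ⬝ᵥ x ≠ 0 := by
    intro h0
    set f : (Fin n → K) →ₗ[K] (Fin n → K) := Matrix.toLin' M - a • LinearMap.id with hf
    have hfv : ∀ v, f v = M *ᵥ v - a • v := by
      intro v
      simp [hf]
    have hdis : Disjoint (LinearMap.ker f) (LinearMap.range f) := by
      rw [Submodule.disjoint_def]
      rintro u hu1 ⟨v, rfl⟩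
      rw [LinearMap.mem_ker, hfv] at hu1
      rw [hfv] at hu1 ⊢
      apply hd
      exact sub_eq_zero.1 hu1
    have htop := Submodule.eq_top_of_disjoint (LinearMap.ker f) (LinearMap.range f) (by
      rw [add_comm, LinearMap.finrank_range_add_finrank_ker]) hdis
    apply hl
    have key : ∀ u : Fin n → K, l ⬝ᵥ u = 0 := by
      intro u
      have hu' : u ∈ LinearMap.ker f ⊔ LinearMap.range f := by
        rw [htop]
        exact Submodule.mem_top
      obtain ⟨p, hp, q, ⟨v, rfl⟩, rfl⟩ := Submodule.mem_sup.1 hu'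
      rw [LinearMap.mem_ker, hfv] at hp
      obtain ⟨t, rfl⟩ := hu p (sub_eq_zero.1 hp)
      rw [hfv, dotProduct_add, dotProduct_smul, h0, dotProduct_sub, Matrix.dotProduct_mulVec,
        hMl, dotProduct_smul, smul_dotProduct]
      simp
    funext i
    have := key (Pi.single i 1)
    simpa using this
  refine ⟨x, (l ⬝ᵥ x)⁻¹ • l, hMx, ?_, ?_, hu, ?_⟩
  · rw [Matrix.smul_vecMul, hMl, smul_comm]
  · rw [smul_dotProduct, smul_eq_mul, inv_mul_cancel₀ hlx]
  · intro r hr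
    obtain ⟨t, rfl⟩ := hul r hr
    refine ⟨t * (l ⬝ᵥ x), ?_⟩
    rw [smul_smul, mul_assoc, mul_inv_cancel₀ hlx, mul_one]

/-- the basis -/
theorem bas_of (hn : 3 ≤ n) (x y l f : Fin n → K) (hlx : l ⬝ᵥ x = 1) (hly : l ⬝ᵥ y = 0)
    (hfx : f ⬝ᵥ x = 0) (hfy : f ⬝ᵥ y = 1) :
    ∃ (P : Matrix.GeneralLinearGroup (Fin n) K) (s : Fin n → ℤ),
      Matrix.vecMulVec x l - Matrix.vecMulVec y f =
        (P : Matrix (Fin n) (Fin n) K) * Matrix.diagonal (fun j => (s j : K)) *
          ((P⁻¹ : Matrix.GeneralLinearGroup (Fin n) K) : Matrix (Fin n) (Fin n) K) ∧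
      (∀ j, |s j| ≤ 1) ∧ (Finset.univ.filter fun j => s j = 1).card = 1 ∧ (∃ j, s j = 0) := by
  obtain ⟨m, rfl⟩ : ∃ m, n = m + 2 := ⟨n - 2, by omega⟩
  set F : (Fin (m + 2) → K) →ₗ[K] (K × K) :=
    { toFun := fun u => (l ⬝ᵥ u, f ⬝ᵥ u)
      map_add' := by
        intro u v
        simp [dotProduct_add]
      map_smul' := by
        intro c u
        simp [dotProduct_smul] } with hF
  have hFu : ∀ u, F u = (l ⬝ᵥ u, f ⬝ᵥ u) := fun u => rfl
  have hsurj : LinearMap.range F = ⊤ := by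
    rw [LinearMap.range_eq_top]
    rintro ⟨p, q⟩
    refine ⟨p • x + q • y, ?_⟩
    rw [hFu]
    simp [dotProduct_add, dotProduct_smul, hlx, hly, hfx, hfy]
  have hdim : Module.finrank K (LinearMap.ker F) = m := by
    have h1 := LinearMap.finrank_range_add_finrank_ker F
    rw [hsurj, finrank_top, Module.finrank_prod, Module.finrank_self, Module.finrank_fin_fun] at h1
    omega
  set b := Module.finBasisOfFinrankEq K (LinearMap.ker F) hdim with hb
  have hbl : ∀ i, l ⬝ᵥ (b i : Fin (m + 2) → K) = 0 ∧ f ⬝ᵥ (b i : Fin (m + 2) → K) = 0 := by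
    intro i
    have := (b i).2
    rw [LinearMap.mem_ker, hFu, Prod.mk_eq_zero] at this
    exact this
  set v : Fin (m + 2) → (Fin (m + 2) → K) :=
    Fin.cons x (Fin.cons y fun i => (b i : Fin (m + 2) → K)) with hv
  have hv0 : v 0 = x := by rw [hv, Fin.cons_zero]
  have hv1 : v (Fin.succ 0) = y := by rw [hv, Fin.cons_succ, Fin.cons_zero]
  have hv2 : ∀ i : Fin m, v (Fin.succ (Fin.succ i)) = b i := by
    intro i
    rw [hv, Fin.cons_succ, Fin.cons_succ]
  set s : Fin (m + 2) → ℤ := Fin.cons 1 (Fin.cons (-1) fun _ => 0) with hs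
  have hs0 : s 0 = 1 := by rw [hs, Fin.cons_zero]
  have hs1 : s (Fin.succ 0) = -1 := by rw [hs, Fin.cons_succ, Fin.cons_zero]
  have hs2 : ∀ i : Fin m, s (Fin.succ (Fin.succ i)) = 0 := by
    intro i
    rw [hs, Fin.cons_succ, Fin.cons_succ]
  have hli : LinearIndependent K v := by
    rw [Fintype.linearIndependent_iff]
    intro g hg
    rw [Fin.sum_univ_succ, Fin.sum_univ_succ, hv0, hv1] at hg
    simp only [hv2] at hg
    have h0 : g 0 = 0 := by
      have := congrArg (fun u => l ⬝ᵥ u) hg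
      simpa [dotProduct_add, dotProduct_smul, hlx, hly, dotProduct_sum, hbl] using this
    have h1 : g (Fin.succ 0) = 0 := by
      have := congrArg (fun u => f ⬝ᵥ u) hg
      simpa [dotProduct_add, dotProduct_smul, hfx, hfy, dotProduct_sum, hbl] using this
    rw [h0, h1, zero_smul, zero_smul, zero_add, zero_add] at hg
    have h2 := Fintype.linearIndependent_iff.1 b.linearIndependent
      (fun i => g (Fin.succ (Fin.succ i))) (by
        apply Subtype.ext
        simpa using hg)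
    intro i
    refine Fin.cases h0 (fun i => ?_) i
    refine Fin.cases h1 (fun i => ?_) i
    exact h2 i
  set Q : Matrix (Fin (m + 2)) (Fin (m + 2)) K := Matrix.of fun i j => v j i with hQ
  have hQc : Q.col = v := by
    funext j i
    rfl
  have hQu : IsUnit Q := by
    rw [← Matrix.linearIndependent_cols_iff_isUnit, hQc]
    exact hli
  obtain ⟨P, hP⟩ := hQu
  refine ⟨P, s, ?_, ?_, ?_, ?_⟩
  · have hC : ∀ j, (Matrix.vecMulVec x l - Matrix.vecMulVec y f) *ᵥ v j = (s j : K) • v j := by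
      intro j
      rw [Matrix.sub_mulVec, Matrix.vecMulVec_mulVec, Matrix.vecMulVec_mulVec]
      refine Fin.cases ?_ (fun i => ?_) j
      · rw [hv0, hs0, hlx, hfx]
        simp
      · refine Fin.cases ?_ (fun i => ?_) i
        · rw [hv1, hs1, hly, hfy]
          simp
        · rw [hv2, hs2, (hbl i).1, (hbl i).2]
          simp
    have hCP : (Matrix.vecMulVec x l - Matrix.vecMulVec y f) * (P : Matrix _ _ K) =
        (P : Matrix _ _ K) * Matrix.diagonal (fun j => (s j : K)) := by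
      rw [hP]
      ext i j
      rw [Matrix.mul_diagonal]
      have := congrFun (hC j) i
      rw [Pi.smul_apply, smul_eq_mul, mul_comm] at this
      exact this
    rw [← hCP, mul_assoc]
    have hPP : (P : Matrix (Fin (m + 2)) (Fin (m + 2)) K) *
        ((P⁻¹ : Matrix.GeneralLinearGroup (Fin (m + 2)) K) :
          Matrix (Fin (m + 2)) (Fin (m + 2)) K) = 1 := by
      rw [← Units.val_mul, mul_inv_cancel, Units.val_one]
    rw [hPP, mul_one]
  · intro j
    refine Fin.cases ?_ (fun i => ?_) j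
    · rw [hs0]
      simp
    · refine Fin.cases ?_ (fun i => ?_) i
      · rw [hs1]
        simp
      · rw [hs2]
        simp
  · rw [Finset.card_eq_one]
    refine ⟨0, ?_⟩
    ext j
    rw [Finset.mem_filter, Finset.mem_singleton]
    constructor
    · rintro ⟨-, h⟩
      revert h
      refine Fin.cases (fun _ => rfl) (fun i => ?_) j
      refine Fin.cases (fun h => ?_) (fun i h => ?_) i
      · rw [hs1] at h
        omega
      · rw [hs2] at h
        omega
    · rintro rfl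
      exact ⟨Finset.mem_univ _, hs0⟩
  · refine ⟨Fin.succ (Fin.succ ⟨0, by omega⟩), hs2 _⟩

/-- the eigenvalues other than `a` and `c / a` -/
def M0 (g : Matrix (Fin n) (Fin n) K) (c a m : K) : Prop :=
  g.charpoly.IsRoot m ∧ m ≠ a ∧ m * a ≠ c

/-- the weights -/
def Wt (g : Matrix (Fin n) (Fin n) K) (c a s m : K) : Prop :=
  (s = 1 ∧ m = a) ∨ (s = -1 ∧ m * a = c) ∨ (s = 0 ∧ M0 g c a m)

/-- a vector with a nonzero image which is an eigenvector modulo the kernel -/
theorem src [IsAlgClosed K] (g C A : Matrix (Fin n) (Fin n) K) (h2 : (2 : K) ≠ 0)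
    (hCg : C * g = g * C) (hC3 : C * C * C = C) (hA : A ≠ 0) :
    ∃ (s m : K) (v w : Fin n → K), w ≠ 0 ∧ g *ᵥ w = m • w ∧ C *ᵥ w = s • w ∧
      A *ᵥ v ≠ 0 ∧ A *ᵥ (g *ᵥ v) = m • (A *ᵥ v) ∧ C *ᵥ v = s • v := by
  -- a generalised eigenvector with nonzero image
  obtain ⟨m, v, hv, hAv⟩ : ∃ (m : K) (v : Fin n → K),
      v ∈ Module.End.maxGenEigenspace (Matrix.toLin' g) m ∧ A *ᵥ v ≠ 0 := by
    by_contra hcon
    push Not at hcon
    apply hA
    have h1 : (⨆ m : K, Module.End.maxGenEigenspace (Matrix.toLin' g) m) ≤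
        LinearMap.ker (Matrix.toLin' A) := by
      apply iSup_le
      intro m v hv
      rw [LinearMap.mem_ker, Matrix.toLin'_apply]
      exact hcon m v hv
    rw [Module.End.iSup_maxGenEigenspace_eq_top, top_le_iff, LinearMap.ker_eq_top] at h1
    exact (LinearEquiv.map_eq_zero_iff _).1 h1
  set N : Matrix (Fin n) (Fin n) K := g - m • (1 : Matrix (Fin n) (Fin n) K) with hN
  have hNv : ∀ u, N *ᵥ u = g *ᵥ u - m • u := by
    intro u
    rw [hN, Matrix.sub_mulVec, Matrix.smul_mulVec, Matrix.one_mulVec]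
  have hCN : C * N = N * C := by
    rw [hN, mul_sub, sub_mul, hCg, mul_smul_comm, smul_mul_assoc, mul_one, one_mul]
  have hCNk : ∀ k : ℕ, C * N ^ k = N ^ k * C := by
    intro k
    exact ((show Commute C N from hCN).pow_right k)
  obtain ⟨j, hj⟩ : ∃ j : ℕ, N ^ j *ᵥ v = 0 := by
    rw [Module.End.mem_maxGenEigenspace] at hv
    obtain ⟨j, hj⟩ := hv
    refine ⟨j, ?_⟩
    have e1 : ((Matrix.toLin' g) - m • (1 : Module.End K (Fin n → K))) = Matrix.toLin' N := by
      rw [hN, map_sub, map_smul]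
      congr 2
      exact Matrix.toLin'_one.symm
    rw [e1] at hj
    rw [← Matrix.toLin'_apply, Matrix.toLin'_pow]
    exact hj
  -- a component
  obtain ⟨s, E, hE, hEC, hAE⟩ : ∃ (s : K) (E : Matrix (Fin n) (Fin n) K),
      (∀ k : ℕ, E * N ^ k = N ^ k * E) ∧ C * E = s • E ∧ A *ᵥ (E *ᵥ v) ≠ 0 := by
    have hc1 : ∀ k : ℕ, (C * C) * N ^ k = N ^ k * (C * C) := by
      intro k
      rw [mul_assoc, hCNk, ← mul_assoc, hCNk, mul_assoc]
    by_cases h1 : A *ᵥ ((C * C + C) *ᵥ v) = 0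
    · by_cases h3 : A *ᵥ ((C * C - C) *ᵥ v) = 0
      · refine ⟨0, 1 - C * C, ?_, ?_, ?_⟩
        · intro k
          rw [sub_mul, mul_sub, hc1, one_mul, mul_one]
        · rw [mul_sub, mul_one, ← mul_assoc, hC3, sub_self, zero_smul]
        · intro h4
          apply hAv
          have h5 : (2 : K) • (A *ᵥ v) = 0 := by
            have e : (2 : K) • v = (2 : K) • ((1 - C * C) *ᵥ v) + (C * C + C) *ᵥ v +
                (C * C - C) *ᵥ v := by
              rw [Matrix.sub_mulVec, Matrix.sub_mulVec, Matrix.add_mulVec, Matrix.one_mulVec,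
                smul_sub, two_smul K ((C * C) *ᵥ v)]
              abel
            rw [← Matrix.mulVec_smul, e, Matrix.mulVec_add, Matrix.mulVec_add,
              Matrix.mulVec_smul, h4, h1, h3]
            simp
          exact (smul_eq_zero.1 h5).resolve_left h2
      · refine ⟨-1, C * C - C, ?_, ?_, h3⟩
        · intro k
          rw [sub_mul, mul_sub, hc1, hCNk]
        · rw [mul_sub, ← mul_assoc, hC3, neg_smul, one_smul, neg_sub]
    · refine ⟨1, C * C + C, ?_, ?_, h1⟩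
      · intro k
        rw [add_mul, mul_add, hc1, hCNk]
      · rw [mul_add, ← mul_assoc, hC3, one_smul, add_comm]
  have hCu : ∀ k : ℕ, C *ᵥ (N ^ k *ᵥ (E *ᵥ v)) = s • (N ^ k *ᵥ (E *ᵥ v)) := by
    intro k
    rw [Matrix.mulVec_mulVec, Matrix.mulVec_mulVec, hCNk, mul_assoc, hEC, mul_smul_comm,
      Matrix.smul_mulVec, Matrix.mulVec_mulVec]
  have hsucc : ∀ k : ℕ, N ^ (k + 1) *ᵥ (E *ᵥ v) = N *ᵥ (N ^ k *ᵥ (E *ᵥ v)) := by
    intro k
    rw [pow_succ', ← Matrix.mulVec_mulVec]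
  have hz : N ^ j *ᵥ (E *ᵥ v) = 0 := by
    rw [Matrix.mulVec_mulVec, ← hE, ← Matrix.mulVec_mulVec, hj, Matrix.mulVec_zero]
  -- the last nonzero vector
  have ex1 : ∃ k : ℕ, N ^ k *ᵥ (E *ᵥ v) = 0 := ⟨j, hz⟩
  have ex2 : ∃ k : ℕ, A *ᵥ (N ^ k *ᵥ (E *ᵥ v)) = 0 := ⟨j, by rw [hz, Matrix.mulVec_zero]⟩
  classical
  obtain ⟨p, hp⟩ : ∃ p, Nat.find ex1 = p + 1 := by
    refine ⟨Nat.find ex1 - 1, ?_⟩
    have : Nat.find ex1 ≠ 0 := by
      intro h0
      have h1 := Nat.find_spec ex1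
      rw [h0, pow_zero, Matrix.one_mulVec] at h1
      apply hAE
      rw [h1, Matrix.mulVec_zero]
    omega
  obtain ⟨q, hq⟩ : ∃ q, Nat.find ex2 = q + 1 := by
    refine ⟨Nat.find ex2 - 1, ?_⟩
    have : Nat.find ex2 ≠ 0 := by
      intro h0
      have h1 := Nat.find_spec ex2
      rw [h0, pow_zero, Matrix.one_mulVec] at h1
      exact hAE h1
    omega
  refine ⟨s, m, N ^ q *ᵥ (E *ᵥ v), N ^ p *ᵥ (E *ᵥ v), ?_, ?_, hCu p, ?_, ?_, hCu q⟩
  · exact Nat.find_min ex1 (by omega)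
  · have h1 := Nat.find_spec ex1
    rw [hp, hsucc, hNv] at h1
    exact sub_eq_zero.1 h1
  · exact Nat.find_min ex2 (by omega)
  · have h1 := Nat.find_spec ex2
    rw [hq, hsucc, hNv, Matrix.mulVec_sub, Matrix.mulVec_smul] at h1
    exact sub_eq_zero.1 h1

/-- the ratios of eigenvalues in the eigenspaces of `ad C` -/
def Cls (g : Matrix (Fin n) (Fin n) K) (c a k t : K) : Prop :=
  (k = 2 ∧ t * c = a ^ 2) ∨ (k = 1 ∧ ∃ m, M0 g c a m ∧ t * c = m * a) ∨
    (k = 0 ∧ (t = 1 ∨ ∃ m m', M0 g c a m ∧ M0 g c a m' ∧ m = t * m')) ∨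
    (k = -1 ∧ ∃ m, M0 g c a m ∧ m = t * a) ∨ (k = -2 ∧ t * a ^ 2 = c)

theorem cls_of (g : Matrix (Fin n) (Fin n) K) (c a k t s m : K) (ha : a ≠ 0) (hc : c ≠ 0)
    (hdual : ∀ m, M0 g c a m → ∃ m', M0 g c a m' ∧ m * m' = c)
    (h1 : Wt g c a s m) (h2 : Wt g c a (k + s) (t * m)) : Cls g c a k t := by
  rcases h1 with ⟨rfl, rfl⟩ | ⟨rfl, h1⟩ | ⟨rfl, h1⟩
  · rcases h2 with ⟨h3, h4⟩ | ⟨h3, h4⟩ | ⟨h3, h4⟩
    · right; right; left
      refine ⟨by linear_combination h3, Or.inl ?_⟩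
      exact mul_right_cancel₀ ha (by rw [h4, one_mul])
    · right; right; right; right
      exact ⟨by linear_combination h3, by linear_combination h4⟩
    · right; right; right; left
      exact ⟨by linear_combination h3, _, h4, rfl⟩
  · rcases h2 with ⟨h3, h4⟩ | ⟨h3, h4⟩ | ⟨h3, h4⟩
    · left
      exact ⟨by linear_combination h3, by rw [← h1]; linear_combination a * h4⟩
    · right; right; left
      refine ⟨by linear_combination h3, Or.inl ?_⟩
      exact mul_right_cancel₀ hc (by linear_combination h4 + (- t) * h1)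
    · right; left
      exact ⟨by linear_combination h3, _, h4, by rw [← h1]; ring⟩
  · obtain ⟨m', hm', hmm⟩ := hdual m h1
    have hm0 : m ≠ 0 := by
      rintro rfl
      rw [zero_mul] at hmm
      exact hc hmm.symm
    rcases h2 with ⟨h3, h4⟩ | ⟨h3, h4⟩ | ⟨h3, h4⟩
    · right; left
      exact ⟨by linear_combination h3, m', hm', by rw [← hmm, ← h4]; ring⟩
    · right; right; right; left
      refine ⟨by linear_combination h3, m', hm', ?_⟩
      exact mul_left_cancel₀ hm0 (by rw [hmm, ← h4]; ring)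
    · right; right; left
      exact ⟨by linear_combination h3, Or.inr ⟨_, _, h4, h1, rfl⟩⟩

theorem cls_inj (g : Matrix (Fin n) (Fin n) K) (c a k l t : K) (ha : a ≠ 0) (hc : c ≠ 0)
    (hdual : ∀ m, M0 g c a m → ∃ m', M0 g c a m' ∧ m * m' = c) (h4 : a ^ 4 ≠ c ^ 2)
    (hiso : ∀ x y z, M0 g c a x → M0 g c a y → M0 g c a z →
      a * x ≠ y * z ∧ a ^ 2 ≠ x * y ∧ a ^ 3 ≠ c * x)
    (hk : Cls g c a k t) (hl : Cls g c a l t) : k = l := by
  have hac : a ^ 2 ≠ c := by
    intro h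
    apply h4
    rw [← h]
    ring
  have hm0 : ∀ m, M0 g c a m → m ≠ 0 := by
    rintro m hm rfl
    obtain ⟨m', -, h⟩ := hdual _ hm
    rw [zero_mul] at h
    exact hc h.symm
  have n21 : t * c = a ^ 2 → (∃ m, M0 g c a m ∧ t * c = m * a) → False := by
    rintro h1 ⟨m, hm, h2⟩
    exact hm.2.1 (mul_right_cancel₀ ha (by rw [← h2, h1]; ring))
  have n20 : t * c = a ^ 2 → (t = 1 ∨ ∃ m m', M0 g c a m ∧ M0 g c a m' ∧ m = t * m') → False := by
    rintro h1 (rfl | ⟨m, m', hm, hm', h2⟩)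
    · exact hac (by rw [← h1, one_mul])
    · obtain ⟨d, hd, hdm⟩ := hdual m' hm'
      exact (hiso m d m hm hd hm).2.1 (by rw [← h1, ← hdm, h2]; ring)
  have n2m : t * c = a ^ 2 → (∃ m, M0 g c a m ∧ m = t * a) → False := by
    rintro h1 ⟨m, hm, h2⟩
    exact (hiso m m m hm hm hm).2.2 (by rw [h2]; linear_combination (- a) * h1)
  have n2n : t * c = a ^ 2 → t * a ^ 2 = c → False := by
    intro h1 h2
    exact h4 (by linear_combination (-a ^ 2) * h1 + c * h2)
  have n10 : (∃ m, M0 g c a m ∧ t * c = m * a) →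
      (t = 1 ∨ ∃ m m', M0 g c a m ∧ M0 g c a m' ∧ m = t * m') → False := by
    rintro ⟨m, hm, h1⟩ (rfl | ⟨m1, m2, hm1, hm2, h2⟩)
    · exact hm.2.2 (by rw [← h1, one_mul])
    · obtain ⟨d, hd, hdm⟩ := hdual m2 hm2
      refine (hiso m m1 d hm hm1 hd).1 ?_
      rw [h2]
      linear_combination (-1 : K) * h1 + (- t) * hdm
  have n1m : (∃ m, M0 g c a m ∧ t * c = m * a) → (∃ m, M0 g c a m ∧ m = t * a) → False := by
    rintro ⟨m, hm, h1⟩ ⟨m', hm', h2⟩
    obtain ⟨d, hd, hdm⟩ := hdual m hm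
    refine (hiso m' d m hm' hd hm).2.1 ?_
    apply mul_left_cancel₀ (hm0 m hm)
    rw [h2]
    linear_combination (- a) * h1 + (- t * a) * hdm
  have n1n : (∃ m, M0 g c a m ∧ t * c = m * a) → t * a ^ 2 = c → False := by
    rintro ⟨m, hm, h1⟩ h2
    obtain ⟨d, hd, hdm⟩ := hdual m hm
    refine (hiso d d d hd hd hd).2.2 ?_
    apply mul_left_cancel₀ (hm0 m hm)
    linear_combination (- a ^ 2) * h1 + c * h2 + (- c) * hdm
  have n0m : (t = 1 ∨ ∃ m m', M0 g c a m ∧ M0 g c a m' ∧ m = t * m') →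
      (∃ m, M0 g c a m ∧ m = t * a) → False := by
    rintro (rfl | ⟨m1, m2, hm1, hm2, h2⟩) ⟨m, hm, h1⟩
    · exact hm.2.1 (by rw [h1, one_mul])
    · exact (hiso m1 m m2 hm1 hm hm2).1 (by rw [h2, h1]; ring)
  have n0n : (t = 1 ∨ ∃ m m', M0 g c a m ∧ M0 g c a m' ∧ m = t * m') → t * a ^ 2 = c → False := by
    rintro (rfl | ⟨m1, m2, hm1, hm2, h2⟩) h1
    · exact hac (by rw [← h1, one_mul])
    · obtain ⟨d, hd, hdm⟩ := hdual m1 hm1
      refine (hiso m2 d m1 hm2 hd hm1).2.1 ?_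
      apply mul_left_cancel₀ (hm0 m1 hm1)
      linear_combination a ^ 2 * h2 + m2 * h1 + (- m2) * hdm
  have nmn : (∃ m, M0 g c a m ∧ m = t * a) → t * a ^ 2 = c → False := by
    rintro ⟨m, hm, h1⟩ h2
    exact hm.2.2 (by rw [h1, ← h2]; ring)
  rcases hk with ⟨rfl, hk⟩ | ⟨rfl, hk⟩ | ⟨rfl, hk⟩ | ⟨rfl, hk⟩ | ⟨rfl, hk⟩
  · rcases hl with ⟨rfl, hl⟩ | ⟨rfl, hl⟩ | ⟨rfl, hl⟩ | ⟨rfl, hl⟩ | ⟨rfl, hl⟩
    exacts [rfl, (n21 hk hl).elim, (n20 hk hl).elim, (n2m hk hl).elim, (n2n hk hl).elim]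
  · rcases hl with ⟨rfl, hl⟩ | ⟨rfl, hl⟩ | ⟨rfl, hl⟩ | ⟨rfl, hl⟩ | ⟨rfl, hl⟩
    exacts [(n21 hl hk).elim, rfl, (n10 hk hl).elim, (n1m hk hl).elim, (n1n hk hl).elim]
  · rcases hl with ⟨rfl, hl⟩ | ⟨rfl, hl⟩ | ⟨rfl, hl⟩ | ⟨rfl, hl⟩ | ⟨rfl, hl⟩
    exacts [(n20 hl hk).elim, (n10 hl hk).elim, rfl, (n0m hk hl).elim, (n0n hk hl).elim]
  · rcases hl with ⟨rfl, hl⟩ | ⟨rfl, hl⟩ | ⟨rfl, hl⟩ | ⟨rfl, hl⟩ | ⟨rfl, hl⟩
    exacts [(n2m hl hk).elim, (n1m hl hk).elim, (n0m hl hk).elim, rfl, (nmn hk hl).elim]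
  · rcases hl with ⟨rfl, hl⟩ | ⟨rfl, hl⟩ | ⟨rfl, hl⟩ | ⟨rfl, hl⟩ | ⟨rfl, hl⟩
    exacts [(n2n hl hk).elim, (n1n hl hk).elim, (n0n hl hk).elim, (nmn hl hk).elim, rfl]

end SpcAux

open Matrix SpcAux in
theorem st_SPC : ST_SPC := by
  intro K _ _ _ n ε ψ G c a hn hdet hsym hε hG hE
  set g : Matrix (Fin n) (Fin n) K := (G : Matrix (Fin n) (Fin n) K) with hg
  obtain ⟨hmul, h4, hiso⟩ := hE
  -- units
  have hGG : g * ((G⁻¹ : Matrix.GeneralLinearGroup (Fin n) K) : Matrix (Fin n) (Fin n) K) = 1 := by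
    rw [hg, ← Units.val_mul, mul_inv_cancel, Units.val_one]
  have hGG' : ((G⁻¹ : Matrix.GeneralLinearGroup (Fin n) K) : Matrix (Fin n) (Fin n) K) * g = 1 := by
    rw [hg, ← Units.val_mul, inv_mul_cancel, Units.val_one]
  have hψu : IsUnit ψ.det := isUnit_iff_ne_zero.2 hdet
  have hψi : ψ * ψ⁻¹ = 1 := Matrix.mul_nonsing_inv ψ hψu
  have hψi' : ψ⁻¹ * ψ = 1 := Matrix.nonsing_inv_mul ψ hψu
  have hginj : ∀ u : Fin n → K, g *ᵥ u = 0 → u = 0 := by
    intro u hu
    have := congrArg (fun v => ((G⁻¹ : Matrix.GeneralLinearGroup (Fin n) K) :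
      Matrix (Fin n) (Fin n) K) *ᵥ v) hu
    simp only [Matrix.mulVec_mulVec, Matrix.mulVec_zero] at this
    rwa [hGG', Matrix.one_mulVec] at this
  have hψginj : ∀ u v : Fin n → K, u ᵥ* (ψ * g) = v ᵥ* (ψ * g) → u = v := by
    intro u v huv
    have := congrArg (fun r => r ᵥ* (((G⁻¹ : Matrix.GeneralLinearGroup (Fin n) K) :
      Matrix (Fin n) (Fin n) K) * ψ⁻¹)) huv
    simp only [Matrix.vecMul_vecMul] at this
    have e : ψ * g * (((G⁻¹ : Matrix.GeneralLinearGroup (Fin n) K) :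
      Matrix (Fin n) (Fin n) K) * ψ⁻¹) = 1 := by
      rw [mul_assoc ψ, ← mul_assoc g, hGG, one_mul, hψi]
    rwa [e, Matrix.vecMul_one, Matrix.vecMul_one] at this
  have hψinj : ∀ u v : Fin n → K, u ᵥ* ψ = v ᵥ* ψ → u = v := by
    intro u v huv
    apply hψginj
    rw [← Matrix.vecMul_vecMul, huv, Matrix.vecMul_vecMul]
  -- `(g u)^T ψ g = c u^T ψ`
  have hsim : ∀ u : Fin n → K, (g *ᵥ u) ᵥ* (ψ * g) = c • (u ᵥ* ψ) := by
    intro u
    rw [← Matrix.vecMul_transpose, Matrix.vecMul_vecMul, ← mul_assoc, hG, Matrix.vecMul_smul]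
  obtain ⟨x, l, hgx, hlg, hlx, hxu, hlu⟩ := simple2 g a hmul
  have hx0 : x ≠ 0 := by
    rintro rfl
    rw [dotProduct_zero] at hlx
    exact zero_ne_one hlx
  have ha : a ≠ 0 := by
    rintro rfl
    rw [zero_smul] at hgx
    exact hx0 (hginj x hgx)
  have hc : c ≠ 0 := by
    rintro rfl
    have := hsim x
    rw [zero_smul] at this
    have h0 := hψginj (g *ᵥ x) 0 (by rw [this, Matrix.zero_vecMul])
    exact hx0 (hginj x h0)
  have hεε : ε * ε = 1 := by
    rcases hε with rfl | rfl <;> ring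
  obtain ⟨b, hb⟩ : ∃ b : K, b * a = c := ⟨c / a, div_mul_cancel₀ c ha⟩
  have hb0 : b ≠ 0 := by
    rintro rfl
    rw [zero_mul] at hb
    exact hc hb.symm
  have hba : b ≠ a := by
    rintro rfl
    apply h4
    rw [← hb]
    ring
  -- the vectors
  set y : Fin n → K := l ᵥ* ψ⁻¹ with hy
  have hyψ : y ᵥ* ψ = l := by
    rw [hy, Matrix.vecMul_vecMul, hψi', Matrix.vecMul_one]
  set f : Fin n → K := ε • (x ᵥ* ψ) with hf
  have hψv : ∀ u : Fin n → K, ψ *ᵥ u = ε • (u ᵥ* ψ) := by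
    intro u
    rw [← Matrix.vecMul_transpose, hsym, Matrix.vecMul_smul]
  have hfg0 : (x ᵥ* ψ) ᵥ* g = b • (x ᵥ* ψ) := by
    have h1 := hsim x
    rw [hgx, Matrix.smul_vecMul, ← Matrix.vecMul_vecMul, ← hb, mul_comm b a, mul_smul] at h1
    exact smul_right_injective _ ha h1
  have hfg : f ᵥ* g = b • f := by
    rw [hf, Matrix.smul_vecMul, hfg0, smul_comm]
  have hgy : g *ᵥ y = b • y := by
    apply hψginj
    rw [hsim, hyψ, Matrix.smul_vecMul, ← Matrix.vecMul_vecMul, hyψ, hlg, smul_smul, hb]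
  have hfy : f ⬝ᵥ y = 1 := by
    rw [hf, smul_dotProduct, ← Matrix.dotProduct_mulVec, hψv, hyψ, dotProduct_smul,
      dotProduct_comm, hlx, smul_smul, hεε, one_smul]
  have hfx : f ⬝ᵥ x = 0 := by
    have h1 : (f ᵥ* g) ⬝ᵥ x = f ⬝ᵥ (g *ᵥ x) := (Matrix.dotProduct_mulVec _ _ _).symm
    rw [hfg, hgx, smul_dotProduct, dotProduct_smul, smul_eq_mul, smul_eq_mul] at h1
    have h2 : (b - a) * (f ⬝ᵥ x) = 0 := by linear_combination h1
    exact (mul_eq_zero.1 h2).resolve_left (sub_ne_zero.2 hba)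
  have hly : l ⬝ᵥ y = 0 := by
    have h1 : (l ᵥ* g) ⬝ᵥ y = l ⬝ᵥ (g *ᵥ y) := (Matrix.dotProduct_mulVec _ _ _).symm
    rw [hlg, hgy, smul_dotProduct, dotProduct_smul, smul_eq_mul, smul_eq_mul] at h1
    have h2 : (b - a) * (l ⬝ᵥ y) = 0 := by linear_combination -h1
    exact (mul_eq_zero.1 h2).resolve_left (sub_ne_zero.2 hba)
  set C : Matrix (Fin n) (Fin n) K := Matrix.vecMulVec x l - Matrix.vecMulVec y f with hC
  have hCv : ∀ u, C *ᵥ u = (l ⬝ᵥ u) • x - (f ⬝ᵥ u) • y := by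
    intro u
    rw [hC, Matrix.sub_mulVec, Matrix.vecMulVec_mulVec, Matrix.vecMulVec_mulVec]
    simp
  have hCx : C *ᵥ x = x := by
    rw [hCv, hlx, hfx, one_smul, zero_smul, sub_zero]
  have hCy : C *ᵥ y = -y := by
    rw [hCv, hly, hfy, one_smul, zero_smul, zero_sub]
  have hCC : C * C = Matrix.vecMulVec x l + Matrix.vecMulVec y f := by
    conv_lhs => rw [hC]
    rw [← hC, mul_sub, Matrix.mul_vecMulVec, Matrix.mul_vecMulVec, hCx, hCy]
    ext i j
    simp [Matrix.vecMulVec_apply]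
  have hC3 : C * C * C = C := by
    rw [mul_assoc, hCC, mul_add, Matrix.mul_vecMulVec, Matrix.mul_vecMulVec, hCx, hCy, hC]
    ext i j
    simp [Matrix.vecMulVec_apply]
    ring
  have hCg : C * g = g * C := by
    rw [hC, sub_mul, mul_sub, Matrix.mul_vecMulVec, Matrix.mul_vecMulVec, Matrix.vecMulVec_mul,
      Matrix.vecMulVec_mul, hgx, hgy, hlg, hfg]
    ext i j
    simp [Matrix.vecMulVec_apply]
  have hskew : C.transpose * ψ + ψ * C = 0 := by
    rw [hC, Matrix.transpose_sub, Matrix.transpose_vecMulVec, Matrix.transpose_vecMulVec, sub_mul,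
      mul_sub, Matrix.mul_vecMulVec, Matrix.mul_vecMulVec, Matrix.vecMulVec_mul,
      Matrix.vecMulVec_mul, hψv, hψv, hyψ, hf]
    ext i j
    simp [Matrix.vecMulVec_apply]
    linear_combination (- (l i * (x ᵥ* ψ) j)) * hεε
  obtain ⟨P, s, hP, hs1, hs2, hs3⟩ := bas_of hn x y l f hlx hly hfx hfy
  have h20 : (2 : K) ≠ 0 := two_ne_zero
  -- the weights of common eigenvectors
  have tgt : ∀ (s m : K) (u : Fin n → K), u ≠ 0 → C *ᵥ u = s • u → g *ᵥ u = m • u →
      Wt g c a s m := by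
    intro s m u hu hCu hgu
    have hl1 : l ⬝ᵥ u = s * (l ⬝ᵥ u) := by
      have h1 := congrArg (fun v => l ⬝ᵥ v) hCu
      simp only [hCv, dotProduct_sub, dotProduct_smul, smul_eq_mul, hlx, hly] at h1
      linear_combination h1
    have hf1 : - (f ⬝ᵥ u) = s * (f ⬝ᵥ u) := by
      have h1 := congrArg (fun v => f ⬝ᵥ v) hCu
      simp only [hCv, dotProduct_sub, dotProduct_smul, smul_eq_mul, hfx, hfy] at h1
      linear_combination h1
    by_cases h1 : l ⬝ᵥ u = 0
    · by_cases h2 : f ⬝ᵥ u = 0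
      · right; right
        refine ⟨?_, root_of_eig g m u hu hgu, ?_, ?_⟩
        · rw [hCv, h1, h2, zero_smul, zero_smul, sub_zero] at hCu
          exact (smul_eq_zero.1 hCu.symm).resolve_right hu
        · rintro rfl
          obtain ⟨t, rfl⟩ := hxu u hgu
          rw [dotProduct_smul, hlx, smul_eq_mul, mul_one] at h1
          rw [h1, zero_smul] at hu
          exact hu rfl
        · intro hm
          have hmb : m = b := mul_right_cancel₀ ha (by rw [hm, hb])
          have h3 := hsim u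
          rw [hgu, Matrix.smul_vecMul, ← Matrix.vecMul_vecMul, hmb, ← hb, mul_smul] at h3
          obtain ⟨t, ht⟩ := hlu _ (smul_right_injective _ hb0 h3)
          have h5 : u = t • y := by
            apply hψinj
            rw [ht, Matrix.smul_vecMul, hyψ]
          rw [h5, dotProduct_smul, hfy, smul_eq_mul, mul_one] at h2
          rw [h5, h2, zero_smul] at hu
          exact hu rfl
      · right; left
        have hs : s = -1 := by
          apply mul_right_cancel₀ h2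
          linear_combination -hf1
        refine ⟨hs, ?_⟩
        have h3 : u = (f ⬝ᵥ u) • y := by
          rw [hCv, h1, zero_smul, zero_sub, hs, neg_smul, one_smul, neg_inj] at hCu
          exact hCu.symm
        have h5 : (m - b) • u = 0 := by
          rw [sub_smul, ← hgu]
          conv_lhs => rw [h3]
          rw [Matrix.mulVec_smul, hgy, smul_comm b, sub_self]
        rw [(sub_eq_zero.1 ((smul_eq_zero.1 h5).resolve_right hu)), hb]
    · left
      have hs : s = 1 := by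
        apply mul_right_cancel₀ h1
        linear_combination -hl1
      refine ⟨hs, ?_⟩
      have hf0 : f ⬝ᵥ u = 0 := by
        rw [hs] at hf1
        have : (2 : K) * (f ⬝ᵥ u) = 0 := by linear_combination -hf1
        exact (mul_eq_zero.1 this).resolve_left h20
      have h3 : u = (l ⬝ᵥ u) • x := by
        rw [hCv, hf0, zero_smul, sub_zero, hs, one_smul] at hCu
        exact hCu.symm
      have h5 : (m - a) • u = 0 := by
        rw [sub_smul, ← hgu]
        conv_lhs => rw [h3]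
        rw [Matrix.mulVec_smul, hgx, smul_comm a, sub_self]
      exact sub_eq_zero.1 ((smul_eq_zero.1 h5).resolve_right hu)
  have hdual : ∀ m, M0 g c a m → ∃ m', M0 g c a m' ∧ m * m' = c := by
    rintro m ⟨hr, hma, hmac⟩
    obtain ⟨w, hw, hgw⟩ := exists_eig g m hr
    have hm0 : m ≠ 0 := by
      rintro rfl
      rw [zero_smul] at hgw
      exact hw (hginj w hgw)
    have h3 := hsim w
    have hcm : m * (c / m) = c := mul_div_cancel₀ c hm0
    rw [hgw, Matrix.smul_vecMul, ← Matrix.vecMul_vecMul] at h3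
    conv_rhs at h3 => rw [← hcm, mul_smul]
    have h5 := smul_right_injective _ hm0 h3
    refine ⟨c / m, ⟨?_, ?_, ?_⟩, hcm⟩
    · have h6 := root_of_eig g.transpose (c / m) (w ᵥ* ψ) (by
        intro h0
        exact hw (hψinj w 0 (by rw [h0, Matrix.zero_vecMul]))) (by
          rw [Matrix.mulVec_transpose]
          exact h5)
      rwa [Matrix.charpoly_transpose] at h6
    · intro h6
      apply hmac
      rw [← h6, hcm]
    · intro h6
      apply hma
      apply mul_right_cancel₀ hc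
      calc m * c = m * (c / m * a) := by rw [h6]
        _ = m * (c / m) * a := by ring
        _ = a * c := by rw [hcm, mul_comm]
  have hcls : ∀ (t k : K) (A : Matrix (Fin n) (Fin n) K), A ≠ 0 → g * A = t • (A * g) →
      C * A - A * C = k • A → Cls g c a k t := by
    intro t k A hA hgA hCA
    obtain ⟨s, m, v, w, hw, hgw, hCw, hAv, hAgv, hCv'⟩ := src g C A h20 hCg hC3 hA
    apply cls_of g c a k t s m ha hc hdual (tgt s m w hw hCw hgw)
    apply tgt _ _ (A *ᵥ v) hAv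
    · have h1 : C * A = A * C + k • A := by rw [← hCA]; abel
      rw [Matrix.mulVec_mulVec, h1, Matrix.add_mulVec, ← Matrix.mulVec_mulVec, hCv',
        Matrix.mulVec_smul, Matrix.smul_mulVec, add_comm k s, add_smul]
    · rw [Matrix.mulVec_mulVec, hgA, Matrix.smul_mulVec, ← Matrix.mulVec_mulVec, hAgv, smul_smul]
  refine ⟨P, s, C, hP, hs1, hs2, hs3, hskew, hCg, ?_⟩
  intro t k k' A B hA hB hgA hgB hCA hCB
  refine cls_inj g c a k k' t ha hc hdual h4 ?_ (hcls t k A hA hgA hCA) (hcls t k' B hB hgB hCB)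
  intro x y z hx hy hz
  exact hiso x y z hx.1 hy.1 hz.1 hx.2 hy.2 hz.2

end MR
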